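import Pool.Agent.N671.DA.Tup
import Pool.Agent.Results.MP_ede373_nt.GrowingDegreeTuples

/-!
# The modular Schanuel conjecture with derivatives at best approximation vectors

Let `α = (α_(i,j))` be a system of `m` linear forms in `k` variables and `β` in `ℝ^m`. We consider the integer vectors
`v = (v_1, …, v_k)` with `‖∑_i v_i α_(i,j) - β_j‖ ≤ c |v| ^ (-τ)` for all `j`, where `‖x‖` is the distance to the nearest
integer and `|v|` the maximum of the `|v_i|`. For `β = 0`, `c = 1` and `τ = k / m` these include all best approximation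
vectors of the system (for `k = m = 1` the denominators of the convergents of `α`). They form a very sparse sequence.

We prove: for all `k` and `q` there is `C` such that for all `δ`, all complex numbers `w_1, …, w_q` and all `τ > 0`, for all
systems `α` outside a set of Hausdorff dimension at most `(k - 1) m + (m + k - 1 / (δ + 2) ^ C) / (1 + τ)` and all `c`, for
all such integer vectors `v` with `|v|` large, the `v_i` are not zero and for **all** points `z_1, …, z_k` of the upper
half-plane with `j(z_i) = ± v_i` (all choices of the signs) there is no nontrivial relation of degree at most `δ`, whatever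
the height of its coefficients, between `2 π i, w_1, …, w_q` and the `3 k` numbers `z_i`, `j'(z_i)`, `j''(z_i)`, over any
number field of degree at most `δ`.

For `τ = k / m` the bound is `k m - m / ((δ + 2) ^ C (m + k))`; so for almost all systems `α` the conjecture holds in degree
`δ` at all large best approximation vectors, for every `δ`. The proof uses the starting theorem `GrowingDegreeTuples` of
this problem (a power saving for the number of the exceptional tuples of integers) and the engine `Pool.Agent.N671.DA`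
(helper671).
-/

set_option autoImplicit false

namespace Pool.Agent.Results.MP_ede373_nt.ApproximationVectors

open Pool.Agent.N671.DA (Near approx_tuples)
open Pool.Agent.Results.MP_ede373_nt.GrowingDegreeTuples (Exceptional)

/-- the tuples of natural numbers such that some choice of the signs is exceptional -/
def W {q : ℕ} (k δ : ℕ) (w : Fin q → ℂ) : Set (Fin k → ℕ) :=
  {v | ∃ n : Fin k → ℤ, (∀ i, |n i| = v i) ∧ (∀ i, n i ≠ 0) ∧ Exceptional δ w n}

lemma count (k q : ℕ) : ∃ C : ℕ, ∀ (δ : ℕ) (w : Fin q → ℂ) (T : ℕ), 1 ≤ T →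
    (({v : Fin k → ℕ | (∀ i, 2 ≤ v i ∧ v i ≤ T) ∧ v ∈ W k δ w}.ncard : ℕ) : ℝ) ≤
      C * (T : ℝ) ^ ((k : ℝ) - 1 / ((δ : ℝ) + 2) ^ C) := by
  classical
  obtain ⟨C, hC⟩ := GrowingDegreeTuples.result k q
  refine ⟨C, fun δ w T hT => le_trans ?_ (hC δ w T hT)⟩
  have hsub : {v : Fin k → ℕ | (∀ i, 2 ≤ v i ∧ v i ≤ T) ∧ v ∈ W k δ w} ⊆
      ((((Fintype.piFinset fun _ : Fin k => Finset.Icc (-(T : ℤ)) T).filter fun n =>
        (∀ i, n i ≠ 0) ∧ Exceptional δ w n).image fun n i => (n i).natAbs : Finset (Fin k → ℕ)) : Set (Fin k → ℕ)) := by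
    rintro v ⟨hv, n, hn1, hn2, hn3⟩
    rw [Finset.mem_coe, Finset.mem_image]
    refine ⟨n, ?_, ?_⟩
    · rw [Finset.mem_filter, Fintype.mem_piFinset]
      refine ⟨fun i => ?_, hn2, hn3⟩
      rw [Finset.mem_Icc]
      have h1 := hn1 i
      have h2 := (hv i).2
      apply abs_le.1
      rw [h1]
      exact_mod_cast h2
    · funext i
      have h1 := hn1 i
      rw [Int.abs_eq_natAbs] at h1
      exact_mod_cast h1
  have h1 := Set.ncard_le_ncard hsub (Finset.finite_toSet _)
  rw [Set.ncard_coe_finset] at h1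
  exact Nat.cast_le.2 (h1.trans Finset.card_image_le)

/-- **Modular Schanuel with derivatives at approximation vectors.** Let `k ≥ 1`. For all `q` there is `C` such that for all
`δ`, all complex numbers `w_1, …, w_q`, all `m`, `β` in `ℝ^m` and `τ > 0`, for all systems `α` of `m` linear forms in `k`
variables outside a set of Hausdorff dimension at most `(k - 1) m + (m + k - 1 / (δ + 2) ^ C) / (1 + τ)` and all `c`, for all
integer vectors `v` with `|v|` large and `‖∑_i v_i α_(i,j) - β_j‖ ≤ c |v| ^ (-τ)` for all `j`: the `v_i` are not zero and no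
tuple `n` with `n_i = ± v_i` is exceptional, that is for all points `z_i` of the upper half-plane with `j(z_i) = ± v_i` there
is no relation of degree at most `δ` over a number field of degree at most `δ` between `2 π i, w_1, …, w_q` and the numbers
`z_i`, `j'(z_i)`, `j''(z_i)` which is not trivial. -/
theorem result (k : ℕ) (hk : 1 ≤ k) (q : ℕ) :
    ∃ C : ℕ, ∀ (δ : ℕ) (w : Fin q → ℂ) (m : ℕ) (β : Fin m → ℝ) (τ : ℝ), 0 < τ →
      ∃ E : Set (Fin k × Fin m → ℝ),
        dimH E ≤ ENNReal.ofReal (((k : ℝ) - 1) * m + (m + ((k : ℝ) - 1 / ((δ : ℝ) + 2) ^ C)) / (1 + τ)) ∧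
        ∀ α, α ∉ E → ∀ c : ℝ, ∃ Q : ℝ, ∀ v : Fin k → ℤ, Q ≤ ‖v‖ → Near α β v (c * ‖v‖ ^ (-τ)) →
          (∀ i, v i ≠ 0) ∧ ∀ n : Fin k → ℤ, (∀ i, |n i| = |v i|) → ¬ Exceptional δ w n := by
  obtain ⟨C, hC⟩ := count k q
  refine ⟨C, fun δ w m β τ hτ => ?_⟩
  have hc1 : 1 / ((δ : ℝ) + 2) ^ C ≤ 1 := by
    have h1 : (1 : ℝ) ≤ ((δ : ℝ) + 2) ^ C := one_le_pow₀ (by linarith [(Nat.cast_nonneg δ : (0 : ℝ) ≤ δ)])
    exact div_le_one_of_le₀ h1 (by positivity)
  obtain ⟨E, hE, hE2⟩ := approx_tuples hk (W k δ w) hc1 (hC δ w) β hτ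
  refine ⟨E, hE, fun α hα c => ?_⟩
  obtain ⟨Q, hQ⟩ := hE2 α hα c
  refine ⟨Q, fun v hv h1 => ?_⟩
  obtain ⟨h2, h3⟩ := hQ v hv h1
  have h4 : ∀ i, v i ≠ 0 := fun i h0 => by
    have := h2 i
    rw [h0] at this
    simp at this
  refine ⟨h4, fun n hn hex => h3 ⟨n, fun i => ?_, fun i h0 => ?_, hex⟩⟩
  · rw [hn i, Int.abs_eq_natAbs]
  · have h5 := hn i
    rw [h0, abs_zero] at h5
    exact h4 i (abs_eq_zero.1 h5.symm)

end Pool.Agent.Results.MP_ede373_nt.ApproximationVectors
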