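import Pool.Agent.N113.SL.Main

/-!
# The modular Schanuel conjecture with derivatives is equivalent to a statement on `ℚ`-linear relations

Let `z_1, …, z_n` be points of the upper half-plane, not CM and pairwise inequivalent under `GL₂⁺(ℚ)`. We
consider the additive (that is, `ℚ`-linear) maps `D : ℂ → ℂ` which vanish at the algebraic numbers and
satisfy the rule of differentiation **only for the inverses of the numbers `z_i + c`**, `c = 0, 1, 2, …`:
`D (1 / (z_i + c)) = - D (z_i) / (z_i + c)²`. (The numbers `z_i` and `-1 / (z_i + c)` are in one orbit of the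
modular group.) Nothing is required of products: the only relations with rational coefficients between
the coordinates `z_i`, `j(z_i)`, `j'(z_i)`, `j''(z_i)` which `D` takes into account are the linear relations between
them and the numbers `1 / (z_i + c)`, modulo algebraic numbers. So the space of the vectors
`(D (z_i), D (j(z_i)), D (j'(z_i)), D (j''(z_i)))` in `ℂ^(4n)` contains the vectors given by the derivations
of `ℂ`, its dimension is at least the transcendence degree of the field generated by the coordinates, and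
it can be much larger.

We prove: the conjecture (transcendence degree at least `3n` for all `n` and all `z`) holds if and only if
this space has dimension at least `3n` for all `n` and all `z`. Moreover, without any hypothesis, for every
`z` and every integer `d`: all the tuples containing `z` have transcendence degree at least three times
the number of points plus `d` if and only if all the tuples containing `z` have dimension at least
three times the number of points plus `d`.

Proof: for a transcendental point `u` and an integer `c` the number `w = 1 / (u + c) - 1 / u` is a point of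
the upper half-plane for large `c`, it is inequivalent to the given points for suitable `c`, and `1 / w` is a
rational combination of `u` and `u²`. So after the extension of the tuple by `w` (which costs nothing,
because `D w` is determined by linearity and the three values at `w` are paid by the point `w`), `D` satisfies
the rule of differentiation for `u²`. All numbers `x` of the ring generated by the coordinates are treated
like this, with the points `m i ± x`. So all polynomial relations are consequences of linear relations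
between the coordinates of a larger tuple.
-/

set_option autoImplicit false

open Pool.Agent.N113

namespace Pool.Agent.Results.MP_ede373_nt.InversionsSuffice

/-- the normalised Eisenstein series of weight `4` -/
noncomputable def E4 (τ : ℂ) : ℂ :=
  1 + 240 * ∑' m : ℕ, ((ArithmeticFunction.sigma 3 (m + 1) : ℕ) : ℂ) *
    Complex.exp (2 * (Real.pi : ℂ) * Complex.I * ((m : ℂ) + 1) * τ)

/-- the normalised Eisenstein series of weight `6` -/
noncomputable def E6 (τ : ℂ) : ℂ :=
  1 - 504 * ∑' m : ℕ, ((ArithmeticFunction.sigma 5 (m + 1) : ℕ) : ℂ) *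
    Complex.exp (2 * (Real.pi : ℂ) * Complex.I * ((m : ℂ) + 1) * τ)

/-- the modular invariant `j = q⁻¹ + 744 + 196884 q + ⋯` -/
noncomputable def J (τ : ℂ) : ℂ := 1728 * E4 τ ^ 3 / (E4 τ ^ 3 - E6 τ ^ 2)

/-- The numbers `z`, `j(z)`, `j'(z)`, `j''(z)` (complex derivatives). -/
noncomputable def numbers (z : ℂ) : Fin 4 → ℂ := ![z, J z, deriv J z, deriv (deriv J) z]

/-- Points of the upper half-plane which are not CM points and which are pairwise inequivalent under
`GL₂⁺(ℚ)`. -/
structure General {κ : Type} (z : κ → ℂ) : Prop where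
  im_pos : ∀ i, 0 < (z i).im
  not_cm : ∀ i, ¬ ∃ a b c : ℤ, (a ≠ 0 ∨ b ≠ 0 ∨ c ≠ 0) ∧ (a : ℂ) * z i ^ 2 + b * z i + c = 0
  inequivalent : ∀ i k, i ≠ k → ¬ ∃ a b c d : ℚ, 0 < a * d - b * c ∧
    z k * (c * z i + d) = a * z i + b

/-- The modular Schanuel conjecture with derivatives: for all `n` and all such points `z_1, …, z_n` there
are `3 n` algebraically independent numbers among the `z_i`, `j(z_i)`, `j'(z_i)`, `j''(z_i)`. -/
def Conjecture : Prop := ∀ (n : ℕ) (z : Fin n → ℂ), General z →
  ∃ f : Fin (3 * n) → Fin n × Fin 4, AlgebraicIndependent ℚ fun k => numbers (z (f k).1) (f k).2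

/-- The additive map `D` vanishes at the algebraic numbers and satisfies the rule of differentiation for
the inverses of the numbers `z i + c`, `c = 0, 1, 2, …`. -/
def Admissible {κ : Type} (z : κ → ℂ) (D : ℂ →ₗ[ℚ] ℂ) : Prop :=
  (∀ a : ℂ, IsAlgebraic ℚ a → D a = 0) ∧
    ∀ (i : κ) (c : ℕ), D (z i + c)⁻¹ = -D (z i) / (z i + c) ^ 2

/-- The vectors `(D (z i), D (j(z i)), D (j'(z i)), D (j''(z i)))`, for all admissible maps `D`. -/
def space {κ : Type} (z : κ → ℂ) : Submodule ℂ (κ × Fin 4 → ℂ) where
  carrier := {v | ∃ D : ℂ →ₗ[ℚ] ℂ, Admissible z D ∧ v = fun x => D (numbers (z x.1) x.2)}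
  zero_mem' := ⟨0, ⟨fun _ _ => rfl, fun _ _ => by simp⟩, rfl⟩
  add_mem' := by
    rintro _ _ ⟨D, ⟨h1, h2⟩, rfl⟩ ⟨D', ⟨h3, h4⟩, rfl⟩
    refine ⟨D + D', ⟨fun a ha => ?_, fun i c => ?_⟩, rfl⟩
    · rw [LinearMap.add_apply, h1 a ha, h3 a ha, add_zero]
    · rw [LinearMap.add_apply, LinearMap.add_apply, h2, h4]
      ring
  smul_mem' := by
    rintro a _ ⟨D, ⟨h1, h2⟩, rfl⟩
    refine ⟨a • D, ⟨fun b hb => ?_, fun i c => ?_⟩, rfl⟩
    · rw [LinearMap.smul_apply, h1 b hb, smul_zero]
    · rw [LinearMap.smul_apply, LinearMap.smul_apply, h2, smul_eq_mul, smul_eq_mul]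
      ring

/-- the values at a point -/
noncomputable def values (z : UpperHalfPlane) : Fin 3 → ℂ :=
  ![J z, deriv J z, deriv (deriv J) z]

/-- the names of the coordinates -/
def names (κ : Type) : κ × Option (Fin 3) ⊕ Empty ≃ κ × Fin 4 :=
  (Equiv.sumEmpty _ _).trans (Equiv.prodCongr (Equiv.refl κ) (finSuccEquiv 3).symm)

theorem names_apply {κ : Type} (t : κ → UpperHalfPlane) (x : κ × Option (Fin 3) ⊕ Empty) :
    numbers (t (names κ x).1) (names κ x).2 = SL.co values Empty.elim t x := by
  rcases x with ⟨i, _ | a⟩ | x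
  · rfl
  · change numbers (t i) (a.succ) = values (t i) a
    fin_cases a <;> rfl
  · exact x.elim

theorem finrank_space {κ : Type} [Fintype κ] (t : κ → UpperHalfPlane) :
    Module.finrank ℂ (space fun i => (t i : ℂ)) = Module.finrank ℂ (SL.Der values Empty.elim t) := by
  refine SL.finrank_names t (names κ) (fun x => numbers (t x.1) x.2) (names_apply t) _ fun v => ?_
  constructor
  · rintro ⟨D, ⟨h1, h2⟩, rfl⟩
    exact ⟨D, ⟨h1, h2⟩, rfl⟩
  · rintro ⟨D, ⟨h1, h2⟩, rfl⟩
    exact ⟨D, ⟨h1, h2⟩, rfl⟩

/-- the tuple as a tuple of points -/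
def tup {κ : Type} [Fintype κ] {z : κ → ℂ} (hz : General z) : SL.Tup :=
  ⟨κ, fun i => ⟨z i, hz.im_pos i⟩⟩

theorem good_tup {κ : Type} [Fintype κ] {z : κ → ℂ} (hz : General z) : SL.Good (tup hz) :=
  ⟨hz.not_cm, hz.inequivalent⟩

theorem general_of {B : SL.Tup} (hB : SL.Good B) : General fun i => (B.t i : ℂ) :=
  ⟨fun i => (B.t i).im_pos, hB.1, hB.2⟩

/-- **The modular Schanuel conjecture with derivatives is equivalent to a statement on `ℚ`-linear
relations**; and the smallest defects over all the extensions of a given tuple are equal. -/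
theorem result :
    (Conjecture ↔ ∀ (κ : Type) [Fintype κ] (z : κ → ℂ), General z →
      3 * Fintype.card κ ≤ Module.finrank ℂ (space z)) ∧
    ∀ (ι : Type) [Fintype ι] (z : ι → ℂ), General z → ∀ d : ℤ,
      (∀ (κ : Type) [Fintype κ] (y : κ → ℂ), General y → Set.range z ⊆ Set.range y →
        ∃ s : Finset (κ × Fin 4), AlgebraicIndependent ℚ (fun x : s => numbers (y x.1.1) x.1.2) ∧
          3 * (Fintype.card κ : ℤ) + d ≤ s.card) ↔
      (∀ (κ : Type) [Fintype κ] (y : κ → ℂ), General y → Set.range z ⊆ Set.range y →
        3 * (Fintype.card κ : ℤ) + d ≤ Module.finrank ℂ (space y)) := by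
  have hcard : ∀ κ : Type, ∀ _ : Fintype κ, ((Fintype.card (Fin 3) * Fintype.card κ : ℕ) : ℤ) =
      3 * (Fintype.card κ : ℤ) := by
    intro κ _
    rw [Fintype.card_fin]
    push_cast
    ring
  have hloc : ∀ (ι : Type) [Fintype ι] (z : ι → ℂ), General z → ∀ d : ℤ,
      (∀ (κ : Type) [Fintype κ] (y : κ → ℂ), General y → Set.range z ⊆ Set.range y →
        ∃ s : Finset (κ × Fin 4), AlgebraicIndependent ℚ (fun x : s => numbers (y x.1.1) x.1.2) ∧
          3 * (Fintype.card κ : ℤ) + d ≤ s.card) ↔
      (∀ (κ : Type) [Fintype κ] (y : κ → ℂ), General y → Set.range z ⊆ Set.range y →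
        3 * (Fintype.card κ : ℤ) + d ≤ Module.finrank ℂ (space y)) := by
    intro ι _ z hz d
    have h1 := SL.local_iff values (Empty.elim : Empty → ℂ) (tup hz) d
    have hsub : ∀ (κ : Type) (_ : Fintype κ) (y : κ → ℂ) (hy : General y),
        Set.range z ⊆ Set.range y ↔ SL.Sub (tup hz) (tup hy) := by
      intro κ _ y hy
      constructor
      · intro h
        choose g hg using fun i => h ⟨i, rfl⟩
        exact ⟨g, fun i => UpperHalfPlane.ext (hg i)⟩
      · rintro ⟨g, hg⟩ _ ⟨i, rfl⟩
        exact ⟨g i, congrArg (fun w : UpperHalfPlane => (w : ℂ)) (hg i)⟩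
    constructor
    · intro h κ _ y hy hzy
      have h2 := h1.1 (fun B hB hAB => by
        have h3 := h B.κ (fun i => (B.t i : ℂ)) (general_of hB)
          ((hsub _ _ _ (general_of hB)).2 hAB)
        rw [hcard]
        exact (SL.indep_names B.t (names B.κ) (fun x => numbers (B.t x.1) x.2)
          (names_apply B.t) _).2 h3) (tup hy) (good_tup hy) ((hsub _ _ _ hy).1 hzy)
      rw [hcard] at h2
      rw [← finrank_space] at h2
      exact h2
    · intro h κ _ y hy hzy
      have h2 := h1.2 (fun B hB hAB => by
        have h3 := h B.κ (fun i => (B.t i : ℂ)) (general_of hB)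
          ((hsub _ _ _ (general_of hB)).2 hAB)
        rw [hcard, ← finrank_space]
        exact h3) (tup hy) (good_tup hy) ((hsub _ _ _ hy).1 hzy)
      rw [hcard] at h2
      exact (SL.indep_names (tup hy).t (names κ) (fun x => numbers ((tup hy).t x.1) x.2)
        (names_apply (tup hy).t) _).1 h2
  refine ⟨?_, hloc⟩
  have hempty : General (Empty.elim : Empty → ℂ) :=
    ⟨fun i => i.elim, fun i => i.elim, fun i => i.elim⟩
  have hran : ∀ (κ : Type) (y : κ → ℂ), Set.range (Empty.elim : Empty → ℂ) ⊆ Set.range y := by
    rintro κ y _ ⟨i, -⟩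
    exact i.elim
  have h0 := hloc Empty Empty.elim hempty 0
  have hconj : Conjecture ↔ ∀ (κ : Type) [Fintype κ] (y : κ → ℂ), General y →
      Set.range (Empty.elim : Empty → ℂ) ⊆ Set.range y →
        ∃ s : Finset (κ × Fin 4), AlgebraicIndependent ℚ (fun x : s => numbers (y x.1.1) x.1.2) ∧
          3 * (Fintype.card κ : ℤ) + 0 ≤ s.card := by
    constructor
    · intro h κ _ y hy _
      let e := Fintype.equivFin κ
      have hy' : General (y ∘ e.symm) :=
        ⟨fun i => hy.im_pos _, fun i => hy.not_cm _, fun i k hik =>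
          hy.inequivalent _ _ fun h => hik (e.symm.injective h)⟩
      obtain ⟨f, hf⟩ := h _ _ hy'
      have h1 := (SL.indep_fin (fun x : κ × Fin 4 => numbers (y x.1) x.2)
        (3 * Fintype.card κ)).2 ⟨fun k => (e.symm (f k).1, (f k).2), hf⟩
      obtain ⟨s, hs, h2⟩ := h1
      refine ⟨s, hs, ?_⟩
      rw [add_zero]
      exact_mod_cast h2
    · intro h n z hz
      obtain ⟨s, hs, h1⟩ := h (Fin n) z hz (hran _ _)
      rw [add_zero, Fintype.card_fin] at h1
      exact (SL.indep_fin (fun x : Fin n × Fin 4 => numbers (z x.1) x.2) (3 * n)).1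
        ⟨s, hs, by exact_mod_cast h1⟩
  rw [hconj, h0]
  constructor
  · intro h κ _ z hz
    have h1 := h κ z hz (hran _ _)
    rw [add_zero] at h1
    exact_mod_cast h1
  · intro h κ _ z hz _
    have h1 := h κ z hz
    rw [add_zero]
    exact_mod_cast h1

end Pool.Agent.Results.MP_ede373_nt.InversionsSuffice
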