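import Pool.Agent.N733.TG.M
import Pool.Agent.Results.MP_ede373_nt.GrowingDegreeTuples

/-!
# The modular Schanuel conjecture with derivatives at values of multiplicative functions

Let `f_1, …, f_k` be positive multiplicative functions of at most polynomial growth such that `f_i p ≤ M p` for the large
primes `p`, with different values at different large primes; for example Euler's function or the sum of the divisors. We
prove: for all `δ` and `U`, for all but `N ^ k / (log N) ^ U` of the tuples `(m_1, …, m_k)` in `[1, N] ^ k`, for **all**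
points `z_1, …, z_k` of the upper half-plane with `j(z_i) = ± f_i(m_i)` (all choices of the signs) there is no nontrivial
relation of degree at most `δ`, whatever the height of its coefficients, between `2 π i, w_1, …, w_q` and the `3 k` numbers
`z_i`, `j'(z_i)`, `j''(z_i)`, over any number field of degree at most `δ`. Here `w_1, …, w_q` are arbitrary complex numbers
and `N` is large in terms of `q`, `δ`, `U` and the functions only.

The tuples of values of such functions have density zero among the tuples of integers, and they are in general taken with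
very large multiplicities (the number of the preimages of a value of Euler's function `≤ N` may be larger than
`(log N) ^ B` for every `B`, and is so on average), so the theorem does not follow from the number of the exceptional
integral invariants. The proof uses the starting theorem `GrowingDegreeTuples` of this problem (a power saving for the number
of the exceptional tuples of integers) and the tool `Pool.Agent.N733.TG` (helper733): tuples of values of such functions
avoid, for almost all arguments, every set with a power saving.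
-/

set_option autoImplicit false

namespace Pool.Agent.Results.MP_ede373_nt.MultiplicativeValues

open Pool.Agent.N733.TG (LM lm_totient lm_sigma keep_tuples)
open Pool.Agent.Results.MP_ede373_nt.GrowingDegreeTuples (Exceptional)

/-- the tuples of natural numbers such that some choice of the signs is exceptional -/
def W {q : ℕ} (k δ : ℕ) (w : Fin q → ℂ) : Set (Fin k → ℕ) :=
  {v | ∃ n : Fin k → ℤ, (∀ i, |n i| = v i) ∧ (∀ i, n i ≠ 0) ∧ Exceptional δ w n}

lemma count (k q : ℕ) : ∃ C : ℕ, ∀ (δ : ℕ) (w : Fin q → ℂ) (X : ℕ), 1 ≤ X →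
    ({v : Fin k → ℕ | v ∈ W k δ w ∧ ∀ i, 1 ≤ v i ∧ v i ≤ X}.ncard : ℝ) ≤
      C * (X : ℝ) ^ ((k : ℝ) - 1 / ((δ : ℝ) + 2) ^ C) := by
  classical
  obtain ⟨C, hC⟩ := GrowingDegreeTuples.result k q
  refine ⟨C, fun δ w X hX => le_trans ?_ (hC δ w X hX)⟩
  have hsub : {v : Fin k → ℕ | v ∈ W k δ w ∧ ∀ i, 1 ≤ v i ∧ v i ≤ X} ⊆
      ((((Fintype.piFinset fun _ : Fin k => Finset.Icc (-(X : ℤ)) X).filter fun n =>
        (∀ i, n i ≠ 0) ∧ Exceptional δ w n).image fun n i => (n i).natAbs : Finset (Fin k → ℕ)) : Set (Fin k → ℕ)) := by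
    rintro v ⟨⟨n, hn1, hn2, hn3⟩, hv⟩
    rw [Finset.mem_coe, Finset.mem_image]
    refine ⟨n, ?_, ?_⟩
    · rw [Finset.mem_filter, Fintype.mem_piFinset]
      refine ⟨fun i => ?_, hn2, hn3⟩
      rw [Finset.mem_Icc]
      have h1 := hn1 i
      have h2 := (hv i).2
      apply abs_le.1
      rw [h1]
      exact_mod_cast h2
    · funext i
      have h1 := hn1 i
      rw [Int.abs_eq_natAbs] at h1
      exact_mod_cast h1
  have h1 := Set.ncard_le_ncard hsub (Finset.finite_toSet _)
  rw [Set.ncard_coe_finset] at h1
  exact Nat.cast_le.2 (h1.trans Finset.card_image_le)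

/-- **Modular Schanuel with derivatives at values of multiplicative functions.** Let `k ≥ 1`. For all `q`, `δ`, all
`f_1, …, f_k` with the property `LM` and all `U`, for all large `N` and all complex numbers `w_1, …, w_q`, for all but at
most `N ^ k / (log N) ^ U` of the tuples `m ∈ [1, N] ^ k` there are no integers `n_i` with `|n_i| = f_i(m_i)` such that
`(n_1, …, n_k)` is exceptional, that is for all points `z_i` of the upper half-plane with `j(z_i) = ± f_i(m_i)` there is no
relation of degree at most `δ` over a number field of degree at most `δ` between `2 π i, w_1, …, w_q` and the numbers `z_i`,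
`j'(z_i)`, `j''(z_i)` which is not trivial. Euler's function and the sum of the divisors are examples of functions with
`LM`. -/
theorem result :
    (∀ k : ℕ, 1 ≤ k → ∀ q δ : ℕ, ∀ f : Fin k → ℕ → ℕ, (∀ i, LM (f i)) → ∀ U : ℕ, ∃ N₀ : ℕ, ∀ N : ℕ, N₀ ≤ N →
      ∀ w : Fin q → ℂ,
        ({m : Fin k → ℕ | (∀ i, 1 ≤ m i ∧ m i ≤ N) ∧
          ∃ n : Fin k → ℤ, (∀ i, |n i| = f i (m i)) ∧ Exceptional δ w n}.ncard : ℝ) ≤
          (N : ℝ) ^ k / Real.log N ^ U) ∧
    (LM Nat.totient ∧ LM (fun m => ∑ d ∈ m.divisors, d)) := by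
  refine ⟨fun k hk q δ f hf U => ?_, lm_totient, lm_sigma⟩
  obtain ⟨C, hC⟩ := count k q
  have hc : 0 < 1 / ((δ : ℝ) + 2) ^ C := by positivity
  have hck : 1 / ((δ : ℝ) + 2) ^ C ≤ (k : ℝ) := by
    have h1 : (1 : ℝ) ≤ ((δ : ℝ) + 2) ^ C := one_le_pow₀ (by linarith [(Nat.cast_nonneg δ : (0 : ℝ) ≤ δ)])
    have h2 : (1 : ℝ) ≤ k := by exact_mod_cast hk
    exact (div_le_one_of_le₀ h1 (by positivity)).trans h2
  obtain ⟨N₀, hN₀⟩ := keep_tuples hf hc hck U C
  refine ⟨N₀, fun N hN w => ?_⟩
  refine le_trans ?_ (hN₀ N hN (W k δ w) (hC δ w))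
  have hfin : {m : Fin k → ℕ | (∀ i, 1 ≤ m i ∧ m i ≤ N) ∧ (fun i => f i (m i)) ∈ W k δ w}.Finite := by
    apply (Fintype.piFinset fun _ : Fin k => Finset.Icc 1 N).finite_toSet.subset
    intro m hm
    rw [Finset.mem_coe, Fintype.mem_piFinset]
    exact fun i => Finset.mem_Icc.2 (hm.1 i)
  have h2 : {m : Fin k → ℕ | (∀ i, 1 ≤ m i ∧ m i ≤ N) ∧
      ∃ n : Fin k → ℤ, (∀ i, |n i| = f i (m i)) ∧ Exceptional δ w n} ⊆
      {m : Fin k → ℕ | (∀ i, 1 ≤ m i ∧ m i ≤ N) ∧ (fun i => f i (m i)) ∈ W k δ w} := by
    rintro m ⟨h3, n, h4, h5⟩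
    refine ⟨h3, n, h4, fun i h0 => ?_, h5⟩
    have h6 := h4 i
    rw [h0, abs_zero] at h6
    have h7 := (hf i).pos (m i) (h3 i).1
    have h8 : f i (m i) = 0 := by exact_mod_cast h6.symm
    omega
  exact_mod_cast Set.ncard_le_ncard h2 hfin

end Pool.Agent.Results.MP_ede373_nt.MultiplicativeValues
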